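import Mathlib
import Pool.Agent.Helper172.HS.Main

/-!
Finite index extensions of hypersmooth Borel equivalence relations are hypersmooth, for arbitrary
Borel equivalence relations on Polish spaces (the classes may be uncountable).

Outline.  Let `E = ⋃ n, ker (f n)` be hypersmooth, `g x = (f n x) n`, so that `x E y` iff the real
sequences `g x`, `g y` are eventually equal (`g x ~ g y`), and let `F ⊇ E` be Borel, each `F`-class
a finite union of `E`-classes.
(1) The analytic set `P = {(x, w) | ∃ y, x F y ∧ w ~ g y}` has sections covered by finitely many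
`~`-classes; a Baire category argument (a Lusin-Novikov type theorem for analytic sets and the
decreasing sequence of closed relations `equal from coordinate n on`) gives Borel functions `d k`
with `P_x ⊆ ⋃ k, [d k x]`.
(2) Novikov's separation theorem gives a Borel function `N` with `P_x ⊆ ⋃ k < N x, [d k x]`.
(3) Separating `P` invariantly from an analytic set one gets a Borel invariant set `Q ⊇ P` with
`Q_x` contained in finitely many of the `[d k x']` for every `x' F x`, and `(y, g x) ∈ Q` only if
`x F y`.
(4) `x F_n y` iff the finite sets of tails from `n` on of the points `d k x`, `k < N x`,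
`(x, d k x) ∈ Q` and of the corresponding points for `y` agree.  Then `F = ⋃ n, F_n`.
-/

set_option autoImplicit false

namespace Pool.Agent.Results.MP_f8fe2f_lc.FiniteIndexHypersmooth

/-- `R` is a Borel equivalence relation on `X`. -/
def IsBorelEquivalence {X : Type} [MeasurableSpace X] (R : X → X → Prop) : Prop :=
  Equivalence R ∧ MeasurableSet {p : X × X | R p.1 p.2}

/-- `R` is smooth: there are a Polish space `Y` and a Borel map `f : X → Y` with
`R x y ↔ f x = f y`. -/
def IsSmooth {X : Type} [MeasurableSpace X] (R : X → X → Prop) : Prop :=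
  ∃ (Y : Type) (_ : TopologicalSpace Y) (_ : PolishSpace Y) (_ : MeasurableSpace Y)
    (_ : BorelSpace Y) (f : X → Y), Measurable f ∧ ∀ x y, R x y ↔ f x = f y

/-- `R` is hypersmooth: the union of an increasing sequence of smooth equivalence relations. -/
def IsHypersmooth {X : Type} [MeasurableSpace X] (R : X → X → Prop) : Prop :=
  ∃ S : ℕ → X → X → Prop, (∀ n, IsSmooth (S n)) ∧ (∀ n x y, S n x y → S (n + 1) x y) ∧
    ∀ x y, R x y ↔ ∃ n, S n x y

/-- `F` is a finite index extension of `E`: `E ⊆ F` and every `F`-class is the union of finitely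
many `E`-classes. -/
def IsFiniteIndexExtension {X : Type} (E F : X → X → Prop) : Prop :=
  (∀ x y, E x y → F x y) ∧
    ∀ x, ∃ s : Set X, s.Finite ∧ {y | F x y} = ⋃ z ∈ s, {y | E z y}

/-- Finite index extensions of hypersmooth Borel equivalence relations are hypersmooth.  The
classes of `E` and `F` are arbitrary (not assumed countable). -/
theorem result (X : Type) [TopologicalSpace X] [PolishSpace X] [MeasurableSpace X] [BorelSpace X]
    (E F : X → X → Prop) (_hE : IsBorelEquivalence E) (hF : IsBorelEquivalence F)
    (hEF : IsFiniteIndexExtension E F) (hEs : IsHypersmooth E) : IsHypersmooth F := by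
  obtain ⟨S, hS, hSm, hSE⟩ := hEs
  have hreal : ∀ n, ∃ f : X → ℝ, Measurable f ∧ ∀ x y, S n x y ↔ f x = f y := by
    intro n
    obtain ⟨Y, tY, pY, mY, bY, f, hf, hfS⟩ := hS n
    have hemb := MeasureTheory.measurableEmbedding_embeddingReal Y
    refine ⟨fun x => MeasureTheory.embeddingReal Y (f x), hemb.measurable.comp hf, ?_⟩
    intro x y
    rw [hfS]
    constructor
    · intro h
      show MeasureTheory.embeddingReal Y (f x) = MeasureTheory.embeddingReal Y (f y)
      rw [h]
    · intro h
      exact hemb.injective h
  choose f hf hfS using hreal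
  obtain ⟨g, hg, hgm, hgF⟩ := Pool.Agent.Helper172.HS.main f F hf
    (fun n x y h => (hfS _ _ _).1 (hSm _ _ _ ((hfS _ _ _).2 h))) hF.1 hF.2
    (fun x y h => by
      obtain ⟨n, hn⟩ := h
      exact hEF.1 x y ((hSE x y).2 ⟨n, (hfS _ _ _).2 hn⟩))
    (fun x => by
      obtain ⟨s, hs, hx⟩ := hEF.2 x
      refine ⟨hs.toFinset, fun y hy => ?_⟩
      have h1 : y ∈ ⋃ z ∈ s, {y | E z y} := by
        rw [← hx]
        exact hy
      simp only [Set.mem_iUnion] at h1
      obtain ⟨z, hz, h2⟩ := h1
      obtain ⟨n, hn⟩ := (hSE z y).1 h2
      exact ⟨z, hs.mem_toFinset.2 hz, n, (hfS _ _ _).1 hn⟩)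
  refine ⟨fun n x y => g n x = g n y, ?_, hgm, hgF⟩
  intro n
  exact ⟨ℝ, inferInstance, inferInstance, inferInstance, inferInstance, g n, hg n,
    fun x y => Iff.rfl⟩

end Pool.Agent.Results.MP_f8fe2f_lc.FiniteIndexHypersmooth
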